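import Mathlib

/-!
# MP_ceb5ee_gt, Q1: Borel hulls of analytic null-finite sets

Every analytic null-finite set in a Polish abelian group lies in a Borel null-finite set.
The proof applies the Novikov separation theorem for sequences of analytic sets with empty
intersection, in the product of the group with the space of strictly increasing sequences.
-/

open Set Filter Topology MeasureTheory

namespace Pool.Agent.Results.MP_ceb5ee_gt.AnalyticHull

/-- `A` is null-finite: some null-sequence `z` has only finitely many `n` with `x + z n ∈ A`,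
for every `x`. -/
def NullFinite {X : Type*} [AddCommGroup X] [TopologicalSpace X] (A : Set X) : Prop :=
  ∃ z : ℕ → X, Tendsto z atTop (𝓝 0) ∧ ∀ x, {n | x + z n ∈ A}.Finite

section Novikov

variable {α : Type*} [MeasurableSpace α]

/-- The sequence `A` can be enlarged to measurable sets with empty intersection. -/
def NSep (A : ℕ → Set α) : Prop :=
  ∃ B : ℕ → Set α, (∀ n, MeasurableSet (B n)) ∧ (∀ n, A n ⊆ B n) ∧ ⋂ n, B n = ∅

theorem nsep_iUnion {A : ℕ → Set α} (n : ℕ) (D : ℕ → ℕ → Set α)
    (hn : A n ⊆ ⋃ m, D m n) (hk : ∀ k, k ≠ n → ∀ m, D m k = A k)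
    (h : ∀ m, NSep (D m)) : NSep A := by
  classical
  choose B hBm hBA hB using h
  refine ⟨fun k => if k = n then ⋃ m, B m k else ⋂ m, B m k, fun k => ?_, fun k => ?_, ?_⟩
  · by_cases hkn : k = n
    · simp only [hkn, if_true]
      exact MeasurableSet.iUnion fun m => hBm m n
    · simp only [hkn, if_false]
      exact MeasurableSet.iInter fun m => hBm m k
  · by_cases hkn : k = n
    · subst hkn
      simp only [if_true]
      intro x hx
      obtain ⟨m, hm⟩ := mem_iUnion.1 (hn hx)
      exact mem_iUnion.2 ⟨m, hBA m k hm⟩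
    · simp only [hkn, if_false]
      intro x hx
      refine mem_iInter.2 fun m => hBA m k ?_
      rw [hk k hkn m]
      exact hx
  · rw [eq_empty_iff_forall_notMem]
    intro x hx
    have h1 : x ∈ ⋃ m, B m n := by
      have := mem_iInter.1 hx n
      simpa using this
    obtain ⟨m, hm⟩ := mem_iUnion.1 h1
    have h2 : x ∈ ⋂ k, B m k := by
      refine mem_iInter.2 fun k => ?_
      by_cases hkn : k = n
      · rw [hkn]
        exact hm
      · have h3 := mem_iInter.1 hx k
        simp only [hkn, if_false] at h3
        exact mem_iInter.1 h3 m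
    rw [hB m] at h2
    exact h2

variable [TopologicalSpace α] [T2Space α] [OpensMeasurableSpace α]

/-- **Novikov separation** for a sequence of analytic sets with empty intersection. -/
theorem novikov {A : ℕ → Set α} (hA : ∀ n, AnalyticSet (A n)) (h : ⋂ n, A n = ∅) : NSep A := by
  classical
  by_cases hne : ∃ n, A n = ∅
  · obtain ⟨n, hn⟩ := hne
    refine ⟨fun k => if k = n then ∅ else univ, fun k => ?_, fun k => ?_, ?_⟩
    · by_cases hkn : k = n
      · simp only [hkn, if_true]
        exact MeasurableSet.empty
      · simp only [hkn, if_false]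
        exact MeasurableSet.univ
    · by_cases hkn : k = n
      · simp only [hkn, if_true, hn]
        exact le_refl _
      · simp only [hkn, if_false]
        exact subset_univ _
    · rw [eq_empty_iff_forall_notMem]
      intro x hx
      have := mem_iInter.1 hx n
      simp at this
  have hf : ∀ n, ∃ f : (ℕ → ℕ) → α, Continuous f ∧ range f = A n := by
    intro n
    have := hA n
    rw [AnalyticSet] at this
    rcases this with h0 | h1
    · exact absurd ⟨n, h0⟩ hne
    · exact h1
  choose f hfc hfr using hf
  by_contra hns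
  let G : (ℕ → ℕ) → ℕ → ℕ → Set α := fun y N k =>
    f k '' {x | ∀ i, Nat.pair k i < N → x i = y (Nat.pair k i)}
  have hGext : ∀ y y' : ℕ → ℕ, ∀ N, (∀ j < N, y j = y' j) → G y N = G y' N := by
    intro y y' N hyy
    funext k
    simp only [G]
    congr 1
    ext x
    simp only [mem_ofPred_eq]
    constructor
    · intro hx i hi
      rw [hx i hi, hyy _ hi]
    · intro hx i hi
      rw [hx i hi, hyy _ hi]
  have hG0 : ∀ y, ¬ NSep (G y 0) := by
    intro y hy
    apply hns
    have : G y 0 = A := by
      funext k
      simp only [G]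
      rw [← hfr k, ← image_univ]
      congr 1
      ext x
      simp
    rwa [this] at hy
  have step : ∀ (N : ℕ) (y : {y // ¬ NSep (G y N)}),
      ∃ y' : {y // ¬ NSep (G y (N + 1))}, ∀ j < N, y'.1 j = y.1 j := by
    rintro N ⟨y, hy⟩
    by_contra hcon
    push Not at hcon
    apply hy
    refine nsep_iUnion (Nat.unpair N).1 (fun m => G (Function.update y N m) (N + 1)) ?_ ?_ ?_
    · rintro _ ⟨x, hx, rfl⟩
      refine mem_iUnion.2 ⟨x (Nat.unpair N).2, x, ?_, rfl⟩
      intro i hi
      by_cases hi' : Nat.pair (Nat.unpair N).1 i = N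
      · rw [hi', Function.update_self]
        have : i = (Nat.unpair N).2 := by
          have h1 := congrArg (fun t => (Nat.unpair t).2) hi'
          simpa using h1
        rw [this]
      · rw [Function.update_of_ne hi']
        exact hx i (by omega)
    · intro k hk m
      simp only [G]
      congr 1
      ext x
      simp only [mem_ofPred_eq]
      have hne' : ∀ i, Nat.pair k i ≠ N := by
        intro i hi
        apply hk
        rw [← hi, Nat.unpair_pair]
      constructor
      · intro hx i hi
        rw [hx i (by omega), Function.update_of_ne (hne' i)]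
      · intro hx i hi
        have := hne' i
        rw [hx i (by omega), Function.update_of_ne (hne' i)]
    · intro m
      by_contra hm
      obtain ⟨j, hj, hj'⟩ := hcon ⟨_, hm⟩
      exact hj' (Function.update_of_ne (by omega) _ _)
  choose g hg using step
  let s : ∀ N, {y // ¬ NSep (G y N)} := fun N =>
    Nat.rec (motive := fun N => {y // ¬ NSep (G y N)})
      (⟨fun _ => 0, hG0 (fun _ => 0)⟩ : {y // ¬ NSep (G y 0)}) (fun N y => g N y) N
  have hs : ∀ N, ∀ j < N, (s (N + 1)).1 j = (s N).1 j := fun N j hj => hg N (s N) j hj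
  let y : ℕ → ℕ := fun j => (s (j + 1)).1 j
  have hy : ∀ N, ∀ j < N, (s N).1 j = y j := by
    intro N
    induction N with
    | zero => intro j hj; exact absurd hj (Nat.not_lt_zero j)
    | succ N ih =>
      intro j hj
      rcases Nat.lt_succ_iff_lt_or_eq.1 hj with h1 | h1
      · rw [hs N j h1, ih j h1]
      · rw [h1]
  have hGy : ∀ N, ¬ NSep (G y N) := by
    intro N
    rw [← hGext _ _ N (hy N)]
    exact (s N).2
  -- the limit points
  let p : ℕ → α := fun k => f k fun i => y (Nat.pair k i)
  have hpA : ∀ k, p k ∈ A k := fun k => by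
    rw [← hfr k]
    exact mem_range_self _
  have hp : ∃ k, p k ≠ p 0 := by
    by_contra hcon
    push Not at hcon
    have : p 0 ∈ ⋂ n, A n := mem_iInter.2 fun n => by
      rw [← hcon n]
      exact hpA n
    rw [h] at this
    exact this
  obtain ⟨k, hk⟩ := hp
  obtain ⟨U, V, hU, hV, hkU, h0V, hUV⟩ := t2_separation hk
  have hloc : ∀ (k : ℕ) (U : Set α), IsOpen U → p k ∈ U →
      ∃ N, ∀ N' ≥ N, G y N' k ⊆ U := by
    intro k U hU hkU
    have h1 : f k ⁻¹' U ∈ 𝓝 (fun i => y (Nat.pair k i)) :=
      (hfc k).continuousAt.preimage_mem_nhds (hU.mem_nhds hkU)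
    rw [nhds_pi, Filter.mem_pi] at h1
    obtain ⟨I, hI, t, ht, htU⟩ := h1
    obtain ⟨N, hN⟩ := (hI.image fun i => Nat.pair k i).bddAbove
    refine ⟨N + 1, fun N' hN' => ?_⟩
    rintro _ ⟨x, hx, rfl⟩
    refine htU ?_
    intro i hi
    have h2 : Nat.pair k i ≤ N := hN (mem_image_of_mem _ hi)
    rw [hx i (by omega)]
    exact mem_of_mem_nhds (ht i)
  obtain ⟨N1, hN1⟩ := hloc k U hU hkU
  obtain ⟨N2, hN2⟩ := hloc 0 V hV h0V
  have hk0 : k ≠ 0 := by
    rintro rfl
    exact hk rfl
  apply hGy (max N1 N2)
  refine ⟨fun j => if j = k then U else if j = 0 then V else univ, fun j => ?_, fun j => ?_, ?_⟩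
  · by_cases hj : j = k
    · simp only [hj, if_true]
      exact hU.measurableSet
    · by_cases hj0 : j = 0
      · simp only [hj, hj0, if_false, if_true]
        rw [if_neg (by omega)]
        exact hV.measurableSet
      · simp only [hj, hj0, if_false]
        exact MeasurableSet.univ
  · by_cases hj : j = k
    · simp only [hj, if_true]
      exact hN1 _ (le_max_left _ _)
    · by_cases hj0 : j = 0
      · subst hj0
        simp only [hj, if_false, if_true]
        exact hN2 _ (le_max_right _ _)
      · simp only [hj, hj0, if_false]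
        exact subset_univ _
  · rw [eq_empty_iff_forall_notMem]
    intro x hx
    have h1 := mem_iInter.1 hx k
    have h2 := mem_iInter.1 hx 0
    simp only [if_true] at h1 h2
    rw [if_neg (by omega)] at h2
    exact Set.disjoint_left.1 hUV h1 h2

end Novikov

/-- **Answer to Q1** (positive): in a Polish abelian group every analytic null-finite set is
contained in a Borel null-finite set. -/
theorem result (X : Type*) [AddCommGroup X] [TopologicalSpace X] [IsTopologicalAddGroup X]
    [PolishSpace X] [MeasurableSpace X] [BorelSpace X] (A : Set X) (hA : AnalyticSet A)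
    (hnf : NullFinite A) : ∃ B : Set X, A ⊆ B ∧ MeasurableSet B ∧ NullFinite B := by
  classical
  obtain ⟨z, hz, hfin⟩ := hnf
  -- the space of strictly increasing sequences
  let S : Set (ℕ → ℕ) := {k | StrictMono k}
  have hS : IsClosed S := by
    have : S = ⋂ i, {k : ℕ → ℕ | k i < k (i + 1)} := by
      ext k
      simp only [S, mem_ofPred_eq, mem_iInter]
      exact ⟨fun h i => h (Nat.lt_succ_self i), strictMono_nat_of_lt_succ⟩
    rw [this]
    refine isClosed_iInter fun i => ?_
    have h1 : Continuous fun k : ℕ → ℕ => (k i, k (i + 1)) :=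
      (continuous_apply i).prodMk (continuous_apply (i + 1))
    exact (isClosed_discrete {q : ℕ × ℕ | q.1 < q.2}).preimage h1
  have hSP : PolishSpace S := hS.polishSpace
  have hcont : ∀ i, Continuous fun q : X × S => q.1 + z (q.2.1 i) := by
    intro i
    refine continuous_fst.add ?_
    have h1 : Continuous fun q : X × S => q.2.1 i :=
      (continuous_apply i).comp (continuous_subtype_val.comp continuous_snd)
    exact continuous_of_discreteTopology.comp h1
  have hcont' : ∀ i, Continuous fun q : X × S => ((q.1 - z (q.2.1 i), q.2) : X × S) := by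
    intro i
    refine (continuous_fst.sub ?_).prodMk continuous_snd
    have h1 : Continuous fun q : X × S => q.2.1 i :=
      (continuous_apply i).comp (continuous_subtype_val.comp continuous_snd)
    exact continuous_of_discreteTopology.comp h1
  let T : ℕ → Set (X × S) := fun i => (fun q : X × S => q.1 + z (q.2.1 i)) ⁻¹' A
  have hT : ∀ i, AnalyticSet (T i) := fun i => hA.preimage (hcont i)
  have hT0 : ⋂ i, T i = ∅ := by
    rw [eq_empty_iff_forall_notMem]
    rintro ⟨x, k⟩ hx
    have hk : StrictMono k.1 := k.2
    refine (infinite_range_of_injective hk.injective) ((hfin x).subset ?_)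
    rintro _ ⟨i, rfl⟩
    exact mem_iInter.1 hx i
  obtain ⟨B, hBm, hTB, hB0⟩ := novikov hT hT0
  -- the coanalytic hull
  let C : Set X := {y | ∃ i, ∃ k : S, (y - z (k.1 i), k) ∉ B i}
  have hC : AnalyticSet C := by
    have : C = ⋃ i, Prod.fst '' ((fun q : X × S => ((q.1 - z (q.2.1 i), q.2) : X × S)) ⁻¹'
        (B i)ᶜ) := by
      ext y
      simp only [C, mem_ofPred_eq, mem_iUnion, mem_image, mem_preimage, mem_compl_iff]
      constructor
      · rintro ⟨i, k, h⟩
        exact ⟨i, (y, k), h, rfl⟩
      · rintro ⟨i, ⟨y', k⟩, h, rfl⟩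
        exact ⟨i, k, h⟩
    rw [this]
    refine AnalyticSet.iUnion fun i => AnalyticSet.image_of_continuous ?_ continuous_fst
    exact ((hcont' i).measurable (hBm i).compl).analyticSet
  have hAC : Disjoint A C := by
    rw [Set.disjoint_left]
    rintro y hy ⟨i, k, h⟩
    refine h (hTB i ?_)
    change y - z (k.1 i) + z (k.1 i) ∈ A
    rwa [sub_add_cancel]
  obtain ⟨D, hAD, hDC, hDm⟩ := hA.measurablySeparable hC hAC
  refine ⟨D, hAD, hDm, z, hz, fun x => ?_⟩
  by_contra hinf
  have hinf' : {n | x + z n ∈ D}.Infinite := hinf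
  let k : S := ⟨Nat.nth fun n => x + z n ∈ D, Nat.nth_strictMono hinf'⟩
  have hk : (x, k) ∈ ⋂ i, B i := by
    refine mem_iInter.2 fun i => ?_
    have h1 : x + z (k.1 i) ∈ D := Nat.nth_mem_of_infinite hinf' i
    by_contra h2
    refine Set.disjoint_left.1 hDC ?_ h1
    refine ⟨i, k, ?_⟩
    rwa [add_sub_cancel_right]
  rw [hB0] at hk
  exact hk

end Pool.Agent.Results.MP_ceb5ee_gt.AnalyticHull
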